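import Mathlib

/-!
# MP_1a8fe4_co, Q1: the answer is negative

`IsCounterexample h A` says, literally as in the problem: `A` is a subset of the finite abelian
group `G`, `3 ≤ h ≤ |A| - 1`, the smallest prime divisor of `|G|` is larger than `h|A| - h^2 + 1`,
the set of sums of `h` pairwise distinct elements of `A` has exactly `h|A| - h^2 + 1` elements,
and none of (i), (ii), (iii), (iv) holds.

The theorem: every finite abelian group whose order has smallest prime divisor `p = 11` or
`p = 17` contains such an `A` with `h = 3` and `|A| = (p + 7) / 3`.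
-/

set_option autoImplicit false

namespace Pool.Agent.Results.MP_1a8fe4_co.ElevenSeventeen

universe u

variable {G : Type u} [AddCommGroup G] [DecidableEq G]

/-- The restricted `h`-fold sumset `{a₁ + ⋯ + a_h : a_i ∈ A pairwise distinct}`. -/
def restrictedSumset (h : ℕ) (A : Finset G) : Finset G :=
  (A.powersetCard h).image (fun s => ∑ x ∈ s, x)

/-- `A` is an arithmetic progression of size `|A|`: `A = {a, a + d, …, a + (m-1) d}` with
`m = |A|` and the `m` listed elements pairwise distinct. -/
def IsAP (A : Finset G) : Prop :=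
  ∃ a d : G, Set.InjOn (fun i : ℕ => a + i • d) (Set.Iio A.card) ∧
    A = (Finset.range A.card).image (fun i : ℕ => a + i • d)

/-- At least one of the conditions (i), (ii), (iii), (iv) of the problem. -/
def Listed (h : ℕ) (A : Finset G) : Prop :=
  h = 1 ∨ h = A.card - 1 ∨
    (h = 2 ∧ A.card = 4 ∧ ∃ a d₁ d₂ : G, A = {a, a + d₁, a + d₂, a + d₁ + d₂}) ∨
    IsAP A

/-- `A` and `h` satisfy all hypotheses of Q1 and the equality, but none of (i)-(iv). -/
def IsCounterexample (h : ℕ) (A : Finset G) : Prop :=
  3 ≤ h ∧ h ≤ A.card - 1 ∧ h * A.card - h ^ 2 + 1 < (Nat.card G).minFac ∧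
    (restrictedSumset h A).card = h * A.card - h ^ 2 + 1 ∧ ¬ Listed h A

section transport

variable {H : Type} [AddCommGroup H] [DecidableEq H] (f : H →+ G) (hf : Function.Injective f)

include hf in
lemma restrictedSumset_image (h : ℕ) (A : Finset H) :
    restrictedSumset h (A.image f) = (restrictedSumset h A).image f := by
  unfold restrictedSumset
  ext y
  simp only [Finset.mem_image, Finset.mem_powersetCard]
  constructor
  · rintro ⟨s, ⟨hs, hc⟩, rfl⟩
    refine ⟨∑ x ∈ s.preimage f hf.injOn, x, ⟨s.preimage f hf.injOn, ⟨?_, ?_⟩, rfl⟩, ?_⟩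
    · intro x hx
      have h1 : f x ∈ s := by simpa using hx
      have h2 := hs h1
      rw [Finset.mem_image] at h2
      obtain ⟨x', hx', he⟩ := h2
      rwa [← hf he]
    · rw [← hc]
      have hsf : (s.preimage f hf.injOn).image f = s := by
        apply Finset.image_preimage_of_bij
        refine ⟨fun x hx => hx, hf.injOn, ?_⟩
        intro y hy
        have h2 := hs hy
        rw [Finset.mem_image] at h2
        obtain ⟨x', _, he⟩ := h2
        exact ⟨x', by simpa [he] using hy, he⟩
      conv_rhs => rw [← hsf]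
      rw [Finset.card_image_of_injective _ hf]
    · rw [map_sum]
      have hsf : (s.preimage f hf.injOn).image f = s := by
        apply Finset.image_preimage_of_bij
        refine ⟨fun x hx => hx, hf.injOn, ?_⟩
        intro y hy
        have h2 := hs hy
        rw [Finset.mem_image] at h2
        obtain ⟨x', _, he⟩ := h2
        exact ⟨x', by simpa [he] using hy, he⟩
      conv_rhs => rw [← hsf]
      rw [Finset.sum_image (fun a _ b _ hab => hf hab)]
  · rintro ⟨x, ⟨s, ⟨hs, hc⟩, rfl⟩, rfl⟩
    refine ⟨s.image f, ⟨Finset.image_subset_image hs, ?_⟩, ?_⟩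
    · rw [Finset.card_image_of_injective _ hf, hc]
    · rw [Finset.sum_image (fun a _ b _ hab => hf hab), map_sum]

include hf in
lemma isAP_of_image (A : Finset H) (hA : 2 ≤ A.card) (h : IsAP (A.image f)) :
    ∃ a d : H, A = (Finset.range A.card).image (fun i : ℕ => a + i • d) := by
  obtain ⟨a, d, _, he⟩ := h
  rw [Finset.card_image_of_injective _ hf] at he
  have ha : a ∈ A.image f := by
    rw [he, Finset.mem_image]
    exact ⟨0, Finset.mem_range.mpr (by omega), by simp⟩
  have hb : a + d ∈ A.image f := by
    rw [he, Finset.mem_image]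
    exact ⟨1, Finset.mem_range.mpr (by omega), by simp⟩
  rw [Finset.mem_image] at ha hb
  obtain ⟨a₀, _, ha₀⟩ := ha
  obtain ⟨b₀, _, hb₀⟩ := hb
  refine ⟨a₀, b₀ - a₀, ?_⟩
  apply Finset.image_injective hf
  rw [he, Finset.image_image]
  apply Finset.image_congr
  intro i _
  simp only [Function.comp_apply, map_add, map_nsmul, map_sub, ha₀, hb₀]
  congr 2
  abel

end transport

/-- A finite abelian group whose order is divisible by the prime `p` contains a copy of `ℤ/p`. -/
lemma exists_embedding {G : Type u} [AddCommGroup G] (p : ℕ) [Fact p.Prime] [Finite G] (hp : p ∣ Nat.card G) :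
    ∃ f : ZMod p →+ G, Function.Injective f := by
  obtain ⟨g, hg⟩ := exists_prime_addOrderOf_dvd_card' p hp
  have h0 : (zmultiplesHom G g) (p : ℤ) = 0 := by
    simp only [zmultiplesHom_apply, natCast_zsmul]
    rw [← hg]
    exact addOrderOf_nsmul_eq_zero g
  refine ⟨ZMod.lift p ⟨zmultiplesHom G g, h0⟩, ?_⟩
  rw [ZMod.lift_injective]
  intro m hm
  simp only [zmultiplesHom_apply] at hm
  rw [ZMod.intCast_zmod_eq_zero_iff_dvd, ← hg]
  exact addOrderOf_dvd_iff_zsmul_eq_zero.mpr hm

lemma card_11 : (restrictedSumset 3 ({0, 1, 3, 4, 5, 9} : Finset (ZMod 11))).card = 10 := by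
  unfold restrictedSumset; decide +kernel

lemma size_11 : ({0, 1, 3, 4, 5, 9} : Finset (ZMod 11)).card = 6 := by decide +kernel

lemma notAP_11 : ¬ ∃ a d : ZMod 11, ({0, 1, 3, 4, 5, 9} : Finset (ZMod 11)) =
    (Finset.range 6).image (fun i : ℕ => a + i • d) := by decide +kernel

lemma card_17 :
    (restrictedSumset 3 ({0, 1, 2, 4, 10, 12, 13, 14} : Finset (ZMod 17))).card = 16 := by
  unfold restrictedSumset; decide +kernel

lemma size_17 : ({0, 1, 2, 4, 10, 12, 13, 14} : Finset (ZMod 17)).card = 8 := by decide +kernel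

lemma notAP_17 : ¬ ∃ a d : ZMod 17, ({0, 1, 2, 4, 10, 12, 13, 14} : Finset (ZMod 17)) =
    (Finset.range 8).image (fun i : ℕ => a + i • d) := by decide +kernel

lemma of_eleven {G : Type u} [AddCommGroup G] [Finite G] [DecidableEq G]
    (hG : (Nat.card G).minFac = 11) :
    ∃ A : Finset G, A.card = 6 ∧ IsCounterexample 3 A := by
  have : Fact (Nat.Prime 11) := ⟨by norm_num⟩
  have hd : 11 ∣ Nat.card G := hG ▸ Nat.minFac_dvd _
  obtain ⟨f, hf⟩ := exists_embedding (G := G) 11 hd
  have hcard := card_11
  have hA := size_11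
  have hAP := notAP_11
  have hc : (({0, 1, 3, 4, 5, 9} : Finset (ZMod 11)).image f).card = 6 := by
    rw [Finset.card_image_of_injective _ hf, hA]
  refine ⟨({0, 1, 3, 4, 5, 9} : Finset (ZMod 11)).image f, hc, le_refl 3, ?_, ?_, ?_, ?_⟩
  · rw [hc]; norm_num
  · rw [hc, hG]; norm_num
  · rw [restrictedSumset_image f hf, Finset.card_image_of_injective _ hf, hcard, hc]
    norm_num
  · rintro (h | h | h | h)
    · omega
    · rw [hc] at h; omega
    · omega
    · have := isAP_of_image f hf _ (by rw [hA]; norm_num) h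
      rw [hA] at this
      exact hAP this

lemma of_seventeen {G : Type u} [AddCommGroup G] [Finite G] [DecidableEq G]
    (hG : (Nat.card G).minFac = 17) :
    ∃ A : Finset G, A.card = 8 ∧ IsCounterexample 3 A := by
  have : Fact (Nat.Prime 17) := ⟨by norm_num⟩
  have hd : 17 ∣ Nat.card G := hG ▸ Nat.minFac_dvd _
  obtain ⟨f, hf⟩ := exists_embedding (G := G) 17 hd
  have hcard := card_17
  have hA := size_17
  have hAP := notAP_17
  have hc : (({0, 1, 2, 4, 10, 12, 13, 14} : Finset (ZMod 17)).image f).card = 8 := by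
    rw [Finset.card_image_of_injective _ hf, hA]
  refine ⟨({0, 1, 2, 4, 10, 12, 13, 14} : Finset (ZMod 17)).image f, hc, le_refl 3,
    ?_, ?_, ?_, ?_⟩
  · rw [hc]; norm_num
  · rw [hc, hG]; norm_num
  · rw [restrictedSumset_image f hf, Finset.card_image_of_injective _ hf, hcard, hc]
    norm_num
  · rintro (h | h | h | h)
    · omega
    · rw [hc] at h; omega
    · omega
    · have := isAP_of_image f hf _ (by rw [hA]; norm_num) h
      rw [hA] at this
      exact hAP this

/-- **Negative answer to Q1.**  Let `G` be any finite abelian group whose order has smallest prime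
divisor `p = 11` or `p = 17` (for instance `ℤ/11` or `ℤ/17`).  Then `G` has a subset `A` with
`|A| = (p + 7) / 3` (so `|A| = 6`, respectively `|A| = 8`) which together with `h = 3` satisfies
all hypotheses of Q1 and the equality `|3^A| = 3|A| - 3^2 + 1 = p - 1`, although none of
(i)-(iv) holds; in particular `A` is not an arithmetic progression. -/
theorem result (G : Type u) [AddCommGroup G] [Finite G] [DecidableEq G]
    (hG : (Nat.card G).minFac = 11 ∨ (Nat.card G).minFac = 17) :
    ∃ A : Finset G, 3 * A.card = (Nat.card G).minFac + 7 ∧ IsCounterexample 3 A := by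
  rcases hG with hG | hG
  · obtain ⟨A, h1, h2⟩ := of_eleven hG
    exact ⟨A, by rw [h1, hG], h2⟩
  · obtain ⟨A, h1, h2⟩ := of_seventeen hG
    exact ⟨A, by rw [h1, hG], h2⟩

end Pool.Agent.Results.MP_1a8fe4_co.ElevenSeventeen
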